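import Mathlib

/-!
# MP_7a8221_co: rectangles tiled by L-tetrominoes of one orientation

Cells are points of `ℤ × ℤ`.  The `5 × 8` rectangle has a tiling by L-tetrominoes of a single orientation class, so the
expected criterion fails; the exact criterion is proved.
-/

set_option autoImplicit false

namespace Pool.Agent.Results.MP_7a8221_co.Characterization

/-- rotation by 90 degrees -/
def rot (p : ℤ × ℤ) : ℤ × ℤ := (-p.2, p.1)

/-- reflection -/
def mir (p : ℤ × ℤ) : ℤ × ℤ := (-p.1, p.2)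

/-- the L-tetromino: a row of three cells with one extra cell above an end cell -/
def L : Finset (ℤ × ℤ) := {(0, 0), (1, 0), (2, 0), (0, 1)}

/-- the copy of the L-tetromino (reflected first if `c = true`) rotated `k` times by 90 degrees and translated
by `v`; the orientation class is `c` -/
def copy (c : Bool) (k : ℕ) (v : ℤ × ℤ) : Finset (ℤ × ℤ) :=
  L.image fun p => rot^[k] (if c then mir p else p) + v

/-- the cells of the `m × n` rectangle -/
def rectangle (m n : ℕ) : Set (ℤ × ℤ) := {p | 0 ≤ p.1 ∧ p.1 < m ∧ 0 ≤ p.2 ∧ p.2 < n}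

/-- `R` is partitioned into copies of the L-tetromino that all lie in the orientation class `c` -/
def Tiled (c : Bool) (R : Set (ℤ × ℤ)) : Prop :=
  ∃ T : Set (Finset (ℤ × ℤ)), (∀ S ∈ T, ∃ k v, S = copy c k v) ∧
    (∀ S ∈ T, ∀ S' ∈ T, S ≠ S' → Disjoint S S') ∧ ∀ p, p ∈ R ↔ ∃ S ∈ T, p ∈ S

/-- the `m × n` rectangle has a tiling by L-tetrominoes all of the same orientation -/
def HasTiling (m n : ℕ) : Prop := ∃ c, Tiled c (rectangle m n)

/-! ## general facts -/

theorem tiled_union {c : Bool} {R R' : Set (ℤ × ℤ)} (h : Tiled c R) (h' : Tiled c R') (hd : Disjoint R R') :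
    Tiled c (R ∪ R') := by
  obtain ⟨T, t1, t2, t3⟩ := h
  obtain ⟨T', t1', t2', t3'⟩ := h'
  have hcross : ∀ S ∈ T, ∀ S' ∈ T', Disjoint S S' := by
    intro S hS S' hS'
    rw [Finset.disjoint_left]
    intro p hp hp'
    exact Set.disjoint_left.1 hd ((t3 p).2 ⟨S, hS, hp⟩) ((t3' p).2 ⟨S', hS', hp'⟩)
  refine ⟨T ∪ T', ?_, ?_, ?_⟩
  · rintro S (hS | hS)
    · exact t1 S hS
    · exact t1' S hS
  · rintro S (hS | hS) S' (hS' | hS') hne
    · exact t2 S hS S' hS' hne
    · exact hcross S hS S' hS'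
    · exact (hcross S' hS' S hS).symm
    · exact t2' S hS S' hS' hne
  · intro p
    constructor
    · rintro (hp | hp)
      · obtain ⟨S, hS, hpS⟩ := (t3 p).1 hp
        exact ⟨S, Or.inl hS, hpS⟩
      · obtain ⟨S, hS, hpS⟩ := (t3' p).1 hp
        exact ⟨S, Or.inr hS, hpS⟩
    · rintro ⟨S, hS | hS, hpS⟩
      · exact Or.inl ((t3 p).2 ⟨S, hS, hpS⟩)
      · exact Or.inr ((t3' p).2 ⟨S, hS, hpS⟩)

/-- transport of a tiling along a bijection of the cells that maps copies to copies -/
theorem tiled_map {c c' : Bool} {R R' : Set (ℤ × ℤ)} (φ : ℤ × ℤ → ℤ × ℤ) (hφ : Function.Injective φ)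
    (hc : ∀ k v, ∃ k' v', (copy c k v).image φ = copy c' k' v') (hR : ∀ p, p ∈ R' ↔ ∃ q ∈ R, φ q = p)
    (h : Tiled c R) : Tiled c' R' := by
  obtain ⟨T, t1, t2, t3⟩ := h
  refine ⟨(fun S : Finset (ℤ × ℤ) => S.image φ) '' T, ?_, ?_, ?_⟩
  · rintro _ ⟨S, hS, rfl⟩
    obtain ⟨k, v, rfl⟩ := t1 S hS
    exact hc k v
  · rintro _ ⟨S, hS, rfl⟩ _ ⟨S', hS', rfl⟩ hne
    have hne' : S ≠ S' := fun h => hne (by rw [h])
    exact (Finset.disjoint_image hφ).2 (t2 S hS S' hS' hne')
  · intro p
    rw [hR]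
    constructor
    · rintro ⟨q, hq, rfl⟩
      obtain ⟨S, hS, hqS⟩ := (t3 q).1 hq
      exact ⟨_, ⟨S, hS, rfl⟩, Finset.mem_image_of_mem φ hqS⟩
    · rintro ⟨_, ⟨S, hS, rfl⟩, hp⟩
      obtain ⟨q, hq, rfl⟩ := Finset.mem_image.1 hp
      exact ⟨q, (t3 q).2 ⟨S, hS, hq⟩, rfl⟩

theorem rot_add (p q : ℤ × ℤ) : rot (p + q) = rot p + rot q := by
  simp only [rot, Prod.fst_add, Prod.snd_add, Prod.mk_add_mk]; ext <;> simp; ring

theorem mir_add (p q : ℤ × ℤ) : mir (p + q) = mir p + mir q := by
  simp only [mir, Prod.fst_add, Prod.snd_add, Prod.mk_add_mk]; ext <;> simp; ring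

theorem mir_rot (k : ℕ) (p : ℤ × ℤ) : mir (rot^[k] p) = rot^[3 * k] (mir p) := by
  induction k generalizing p with
  | zero => rfl
  | succ k ih =>
    rw [Function.iterate_succ_apply, ih (rot p), show 3 * (k + 1) = 3 * k + 3 by ring, Function.iterate_add_apply]
    congr 1
    simp [rot, mir]

theorem mir_mir (p : ℤ × ℤ) : mir (mir p) = p := by simp [mir]

theorem tiled_translate {c : Bool} {R : Set (ℤ × ℤ)} (w : ℤ × ℤ) (h : Tiled c R) :
    Tiled c {p | p - w ∈ R} := by
  refine tiled_map (fun p => p + w) (add_left_injective w) ?_ ?_ h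
  · intro k v
    refine ⟨k, v + w, ?_⟩
    rw [copy, Finset.image_image, copy]
    congr 1
    funext p
    simp [add_assoc]
  · intro p
    constructor
    · intro hp; exact ⟨p - w, hp, by simp⟩
    · rintro ⟨q, hq, rfl⟩; simpa using hq

theorem tiled_rot {c : Bool} {R : Set (ℤ × ℤ)} (h : Tiled c R) : Tiled c {p | (p.2, -p.1) ∈ R} := by
  refine tiled_map rot ?_ ?_ ?_ h
  · intro p q hpq
    simp only [rot, Prod.mk.injEq] at hpq
    ext
    · exact hpq.2
    · linarith [hpq.1]
  · intro k v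
    refine ⟨k + 1, rot v, ?_⟩
    rw [copy, Finset.image_image, copy]
    congr 1
    funext p
    simp only [Function.comp, rot_add, Function.iterate_succ_apply']
  · intro p
    constructor
    · intro hp; exact ⟨_, hp, by simp [rot]⟩
    · rintro ⟨q, hq, rfl⟩; simpa [rot] using hq

theorem tiled_mir {c : Bool} {R : Set (ℤ × ℤ)} (h : Tiled c R) : Tiled (!c) {p | (-p.1, p.2) ∈ R} := by
  refine tiled_map mir ?_ ?_ ?_ h
  · intro p q hpq
    have := congrArg mir hpq
    rwa [mir_mir, mir_mir] at this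
  · intro k v
    refine ⟨3 * k, mir v, ?_⟩
    rw [copy, Finset.image_image, copy]
    congr 1
    funext p
    simp only [Function.comp, mir_add, mir_rot]
    cases c <;> simp [mir_mir]
  · intro p
    constructor
    · intro hp; exact ⟨_, hp, by simp [mir]⟩
    · rintro ⟨q, hq, rfl⟩; simpa [mir] using hq

theorem tiled_transpose {c : Bool} {m n : ℕ} (h : Tiled c (rectangle m n)) : Tiled c (rectangle n m) := by
  have := tiled_translate (n, 0) (tiled_rot (tiled_translate (0, 1) h))
  convert this using 1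
  ext p
  simp only [rectangle, Set.mem_ofPred_eq, Prod.fst_sub, Prod.snd_sub]
  constructor
  · rintro ⟨h1, h2, h3, h4⟩; refine ⟨by linarith, by linarith, by linarith, by linarith⟩
  · rintro ⟨h1, h2, h3, h4⟩; refine ⟨by linarith, by linarith, by linarith, by linarith⟩

theorem tiled_mirror {c : Bool} {m n : ℕ} (h : Tiled c (rectangle m n)) : Tiled (!c) (rectangle m n) := by
  have := tiled_translate (m, 0) (tiled_mir (tiled_translate (1, 0) h))
  convert this using 1
  ext p
  simp only [rectangle, Set.mem_ofPred_eq, Prod.fst_sub, Prod.snd_sub]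
  constructor
  · rintro ⟨h1, h2, h3, h4⟩; refine ⟨by linarith, by linarith, by linarith, by linarith⟩
  · rintro ⟨h1, h2, h3, h4⟩; refine ⟨by linarith, by linarith, by linarith, by linarith⟩

theorem tiled_add {c : Bool} {m m' n : ℕ} (h : Tiled c (rectangle m n)) (h' : Tiled c (rectangle m' n)) :
    Tiled c (rectangle (m + m') n) := by
  have h2 := tiled_translate (m, 0) h'
  have h3 := tiled_union h h2 (by
    rw [Set.disjoint_left]
    rintro p ⟨h1, h2, h3, h4⟩ ⟨h5, h6, h7, h8⟩
    simp only [Prod.fst_sub] at h5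
    linarith)
  convert h3 using 1
  ext p
  simp only [rectangle, Set.mem_ofPred_eq, Prod.fst_sub, Prod.snd_sub, Set.mem_union]
  push_cast
  constructor
  · rintro ⟨h1, h2, h3, h4⟩
    rcases lt_or_ge p.1 m with h | h
    · left; exact ⟨h1, h, h3, h4⟩
    · right; refine ⟨by linarith, by linarith, by linarith, by linarith⟩
  · rintro (⟨h1, h2, h3, h4⟩ | ⟨h1, h2, h3, h4⟩)
    · refine ⟨h1, by linarith, h3, h4⟩
    · refine ⟨by linarith, by linarith, by linarith, by linarith⟩

/-! ## tilings -/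

/-- the cells of the rectangle as a finite set -/
def rf (m n : ℕ) : Finset (ℤ × ℤ) := (Finset.range m ×ˢ Finset.range n).image fun p => ((p.1 : ℤ), (p.2 : ℤ))

theorem mem_rf (m n : ℕ) (p : ℤ × ℤ) : p ∈ rf m n ↔ p ∈ rectangle m n := by
  simp only [rf, Finset.mem_image, Finset.mem_product, Finset.mem_range, Prod.exists, rectangle, Set.mem_ofPred_eq]
  constructor
  · rintro ⟨a, b, ⟨ha, hb⟩, rfl⟩
    exact ⟨Int.natCast_nonneg a, Int.ofNat_lt.2 ha, Int.natCast_nonneg b, Int.ofNat_lt.2 hb⟩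
  · rintro ⟨h1, h2, h3, h4⟩
    refine ⟨p.1.toNat, p.2.toNat, ⟨by omega, by omega⟩, ?_⟩
    ext
    · simp [h1]
    · simp [h3]

/-- explicit tilings, given by lists of placements -/
theorem tiled_of_list (m n : ℕ) (l : List (ℕ × ℤ × ℤ))
    (h1 : (l.map fun q => copy false q.1 q.2).Pairwise Disjoint)
    (h2 : (l.map fun q => copy false q.1 q.2).foldr (· ∪ ·) ∅ = rf m n) : Tiled false (rectangle m n) := by
  refine ⟨{S | S ∈ l.map fun q => copy false q.1 q.2}, ?_, ?_, ?_⟩
  · intro S hS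
    obtain ⟨q, -, rfl⟩ := List.mem_map.1 hS
    exact ⟨q.1, q.2, rfl⟩
  · intro S hS S' hS' hne
    exact (List.Pairwise.forall h1 hS hS' hne)
  · have key : ∀ (l : List (Finset (ℤ × ℤ))) (p : ℤ × ℤ), p ∈ l.foldr (· ∪ ·) ∅ ↔ ∃ S ∈ l, p ∈ S := by
      intro l p
      induction l with
      | nil => simp
      | cons a l ih => simp [ih]
    intro p
    rw [← mem_rf, ← h2, key]
    rfl

theorem tiled_2_4 : Tiled false (rectangle 2 4) := by
  refine tiled_of_list 2 4 [(1, (1, 0)), (3, (0, 3))] ?_ ?_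
  · decide +kernel
  · decide +kernel

theorem tiled_5_8 : Tiled false (rectangle 5 8) := by
  refine tiled_of_list 5 8 [(0, (0, 0)), (1, (4, 0)), (1, (2, 1)), (3, (3, 3)), (1, (1, 2)), (3, (0, 5)),
    (0, (2, 4)), (1, (4, 5)), (0, (0, 6)), (2, (3, 7))] ?_ ?_
  · decide +kernel
  · decide +kernel

theorem tiled_zero (c : Bool) (n : ℕ) : Tiled c (rectangle 0 n) := by
  refine ⟨∅, fun S hS => absurd hS (Set.notMem_empty S), fun S hS => absurd hS (Set.notMem_empty S), ?_⟩
  intro p
  constructor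
  · rintro ⟨h1, h2, -, -⟩
    have : (p.1 : ℤ) < 0 := by simpa using h2
    omega
  · rintro ⟨S, hS, -⟩
    exact absurd hS (Set.notMem_empty S)

theorem tiled_mul {c : Bool} {m n : ℕ} (h : Tiled c (rectangle m n)) (a : ℕ) : Tiled c (rectangle (a * m) n) := by
  induction a with
  | zero => rw [Nat.zero_mul]; exact tiled_zero c n
  | succ a ih => rw [Nat.succ_mul]; exact tiled_add ih h

theorem tiled_mul' {c : Bool} {m n : ℕ} (h : Tiled c (rectangle m n)) (a b : ℕ) :
    Tiled c (rectangle (a * m) (b * n)) :=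
  tiled_transpose (tiled_mul (tiled_transpose (tiled_mul h a)) b)

/-- sufficiency -/
theorem tiled_of (m n : ℕ) (hm : 2 ≤ m) (hn : 2 ≤ n) (h8 : 8 ∣ m * n) (hm3 : m ≠ 3) (hn3 : n ≠ 3) :
    Tiled false (rectangle m n) := by
  -- odd side and a side divisible by 8
  have hodd : ∀ m n : ℕ, 5 ≤ m → m % 2 = 1 → 8 ∣ n → Tiled false (rectangle m n) := by
    intro m n h5 ho h8
    obtain ⟨b, rfl⟩ := h8
    obtain ⟨a, ha⟩ : ∃ a, m = 5 + a * 2 := ⟨(m - 5) / 2, by omega⟩
    rw [ha]
    apply tiled_add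
    · have := tiled_mul' tiled_5_8 1 b
      rwa [one_mul, mul_comm b 8] at this
    · have := tiled_mul' tiled_2_4 a (2 * b)
      rwa [show 2 * b * 4 = 8 * b by ring] at this
  -- even sides
  have heven : ∀ m n : ℕ, 2 ∣ m → 4 ∣ n → Tiled false (rectangle m n) := by
    intro m n h2 h4
    obtain ⟨a, rfl⟩ := h2
    obtain ⟨b, rfl⟩ := h4
    have := tiled_mul' tiled_2_4 a b
    rwa [mul_comm a 2, mul_comm b 4] at this
  rcases Nat.even_or_odd m with hme | hmo
  · rcases Nat.even_or_odd n with hne | hno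
    · obtain ⟨a, rfl⟩ := even_iff_two_dvd.1 hme
      obtain ⟨b, rfl⟩ := even_iff_two_dvd.1 hne
      have h2 : 2 ∣ a * b := by
        obtain ⟨c, hc⟩ := h8
        exact ⟨c, by nlinarith⟩
      rcases (Nat.Prime.dvd_mul Nat.prime_two).1 h2 with h | h
      · exact tiled_transpose (heven _ _ ⟨b, rfl⟩ (by obtain ⟨c, rfl⟩ := h; exact ⟨c, by ring⟩))
      · exact heven _ _ ⟨a, rfl⟩ (by obtain ⟨c, rfl⟩ := h; exact ⟨c, by ring⟩)
    · have hno' : n % 2 = 1 := Nat.odd_iff.1 hno
      have h8m : 8 ∣ m := by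
        have hc : Nat.Coprime 8 n := (Nat.Coprime.pow_left 3 (Nat.coprime_two_left.2 hno) : Nat.Coprime (2 ^ 3) n)
        exact hc.dvd_of_dvd_mul_right h8
      exact tiled_transpose (hodd n m (by omega) hno' h8m)
  · have hmo' : m % 2 = 1 := Nat.odd_iff.1 hmo
    have h8n : 8 ∣ n := by
      have hc : Nat.Coprime 8 m := (Nat.Coprime.pow_left 3 (Nat.coprime_two_left.2 hmo) : Nat.Coprime (2 ^ 3) m)
      exact hc.dvd_of_dvd_mul_left h8
    exact hodd m n (by omega) hmo' h8n

/-! ## necessity: colourings -/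

theorem rot4 (k : ℕ) : rot^[k] = rot^[k % 4] := by
  have h4 : ∀ p, rot^[4] p = p := by intro p; simp [rot]
  have key : ∀ j : ℕ, ∀ p, rot^[4 * j] p = p := by
    intro j
    induction j with
    | zero => intro p; rfl
    | succ j ih => intro p; rw [Nat.mul_succ, Function.iterate_add_apply, h4, ih]
  funext p
  conv_lhs => rw [← Nat.mod_add_div k 4, Function.iterate_add_apply, key]

theorem copy_mod (c : Bool) (k : ℕ) (v : ℤ × ℤ) : copy c k v = copy c (k % 4) v := by
  simp only [copy]; rw [rot4]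

/-- the colouring by columns -/
def g (a : ℤ) : ℤ := 1 - 2 * (a % 2)

theorem copy_sum (c : Bool) (k : ℕ) (v : ℤ × ℤ) : (∑ p ∈ copy c k v, g p.1) % 4 = 2 := by
  rw [copy_mod]
  have hk : k % 4 < 4 := Nat.mod_lt _ (by norm_num)
  have hinj : ∀ c : Bool, ∀ j : ℕ, Function.Injective fun p : ℤ × ℤ => rot^[j] (if c then mir p else p) + v := by
    intro c j
    have hr : Function.Injective rot := by
      intro p q hpq
      simp only [rot, Prod.mk.injEq] at hpq
      ext
      · exact hpq.2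
      · linarith [hpq.1]
    have hm : Function.Injective mir := by
      intro p q hpq
      have := congrArg mir hpq
      rwa [mir_mir, mir_mir] at this
    intro p q hpq
    simp only [add_left_inj] at hpq
    have := hr.iterate j hpq
    cases c
    · simpa using this
    · simpa using hm (by simpa using this)
  rw [copy, Finset.sum_image (fun p _ q _ h => hinj c _ h)]
  simp only [L]
  rw [Finset.sum_insert (by decide), Finset.sum_insert (by decide), Finset.sum_insert (by decide),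
    Finset.sum_singleton]
  obtain ⟨x, y⟩ := v
  generalize k % 4 = j at hk
  cases c
  · interval_cases j <;> simp [rot, g] <;> omega
  · interval_cases j <;> simp [rot, mir, g] <;> omega

theorem copy_card (c : Bool) (k : ℕ) (v : ℤ × ℤ) : (copy c k v).card = 4 := by
  rw [copy, Finset.card_image_of_injective]
  · rfl
  · have hr : Function.Injective rot := by
      intro p q hpq
      simp only [rot, Prod.mk.injEq] at hpq
      ext
      · exact hpq.2
      · linarith [hpq.1]
    have hm : Function.Injective mir := by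
      intro p q hpq
      have := congrArg mir hpq
      rwa [mir_mir, mir_mir] at this
    intro p q hpq
    simp only [add_left_inj] at hpq
    have := hr.iterate k hpq
    cases c
    · simpa using this
    · simpa using hm (by simpa using this)

theorem sum_g_even (m : ℕ) (hm : Even m) : ∑ x ∈ Finset.range m, g (x : ℤ) = 0 := by
  obtain ⟨r, rfl⟩ := hm
  rw [← two_mul]
  induction r with
  | zero => rfl
  | succ r ih =>
    rw [Nat.mul_succ, show 2 * r + 2 = 2 * r + 1 + 1 by ring, Finset.sum_range_succ, Finset.sum_range_succ, ih]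
    simp only [g]
    push_cast
    omega

theorem dvd_of_tiled_even {c : Bool} {m n : ℕ} (hm : Even m) (h : Tiled c (rectangle m n)) : 8 ∣ m * n := by
  classical
  obtain ⟨T, t1, t2, t3⟩ := h
  have hsub : ∀ S ∈ T, S ⊆ rf m n := by
    intro S hS p hp
    rw [mem_rf, t3]
    exact ⟨S, hS, hp⟩
  have hfin : T.Finite := (Finset.finite_toSet (rf m n).powerset).subset fun S hS => by
    simpa using hsub S hS
  set 𝒯 : Finset (Finset (ℤ × ℤ)) := hfin.toFinset with h𝒯
  have hmem : ∀ S, S ∈ 𝒯 ↔ S ∈ T := fun S => hfin.mem_toFinset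
  have hU : rf m n = 𝒯.biUnion id := by
    ext p
    rw [mem_rf, t3, Finset.mem_biUnion]
    simp only [hmem, id]
  have hdis : (𝒯 : Set (Finset (ℤ × ℤ))).PairwiseDisjoint id := by
    intro S hS S' hS' hne
    exact t2 S ((hmem S).1 hS) S' ((hmem S').1 hS') hne
  have hrfinj : Function.Injective fun p : ℕ × ℕ => ((p.1 : ℤ), (p.2 : ℤ)) := by
    intro p q hpq
    simp only [Prod.mk.injEq, Nat.cast_inj] at hpq
    exact Prod.ext hpq.1 hpq.2
  have hcard : m * n = 4 * 𝒯.card := by
    have e1 : (rf m n).card = m * n := by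
      rw [rf, Finset.card_image_of_injective _ hrfinj]; simp
    rw [← e1, hU, Finset.card_biUnion hdis, Finset.sum_const_nat (m := 4), mul_comm]
    intro S hS
    obtain ⟨k, v, rfl⟩ := t1 S ((hmem S).1 hS)
    exact copy_card c k v
  have hsum : ∑ p ∈ rf m n, g p.1 = 0 := by
    rw [rf, Finset.sum_image (fun p _ q _ h => hrfinj h), Finset.sum_product]
    simp only [Finset.sum_const, Finset.card_range]
    rw [← Finset.smul_sum, sum_g_even m hm, smul_zero]
  rw [hU, Finset.sum_biUnion hdis] at hsum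
  have hmod : (∑ S ∈ 𝒯, ∑ p ∈ id S, g p.1) % 4 = (2 * (𝒯.card : ℤ)) % 4 := by
    have : ∀ 𝒰 : Finset (Finset (ℤ × ℤ)), (∀ S ∈ 𝒰, S ∈ T) →
        (∑ S ∈ 𝒰, ∑ p ∈ id S, g p.1) % 4 = (2 * (𝒰.card : ℤ)) % 4 := by
      intro 𝒰
      induction 𝒰 using Finset.induction_on with
      | empty => intro _; rfl
      | insert S 𝒰 hS ih =>
        intro h
        rw [Finset.sum_insert hS, Finset.card_insert_of_notMem hS]
        have h1 := ih fun S' hS' => h S' (Finset.mem_insert_of_mem hS')
        obtain ⟨k, v, hkv⟩ := t1 S (h S (Finset.mem_insert_self S 𝒰))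
        have h2 := copy_sum c k v
        rw [← hkv] at h2
        push_cast
        simp only [id] at h1 h2 ⊢
        omega
    exact this 𝒯 fun S hS => (hmem S).1 hS
  rw [hsum] at hmod
  have : 2 ∣ 𝒯.card := by omega
  obtain ⟨d, hd⟩ := this
  exact ⟨d, by rw [hcard, hd]; ring⟩

theorem four_dvd {c : Bool} {m n : ℕ} (h : Tiled c (rectangle m n)) : 4 ∣ m * n := by
  classical
  obtain ⟨T, t1, t2, t3⟩ := h
  have hsub : ∀ S ∈ T, S ⊆ rf m n := by
    intro S hS p hp
    rw [mem_rf, t3]
    exact ⟨S, hS, hp⟩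
  have hfin : T.Finite := (Finset.finite_toSet (rf m n).powerset).subset fun S hS => by
    simpa using hsub S hS
  set 𝒯 : Finset (Finset (ℤ × ℤ)) := hfin.toFinset with h𝒯
  have hmem : ∀ S, S ∈ 𝒯 ↔ S ∈ T := fun S => hfin.mem_toFinset
  have hU : rf m n = 𝒯.biUnion id := by
    ext p
    rw [mem_rf, t3, Finset.mem_biUnion]
    simp only [hmem, id]
  have hdis : (𝒯 : Set (Finset (ℤ × ℤ))).PairwiseDisjoint id := by
    intro S hS S' hS' hne
    exact t2 S ((hmem S).1 hS) S' ((hmem S').1 hS') hne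
  have hrfinj : Function.Injective fun p : ℕ × ℕ => ((p.1 : ℤ), (p.2 : ℤ)) := by
    intro p q hpq
    simp only [Prod.mk.injEq, Nat.cast_inj] at hpq
    exact Prod.ext hpq.1 hpq.2
  have e1 : (rf m n).card = m * n := by
    rw [rf, Finset.card_image_of_injective _ hrfinj]; simp
  refine ⟨𝒯.card, ?_⟩
  rw [← e1, hU, Finset.card_biUnion hdis, Finset.sum_const_nat (m := 4), mul_comm]
  intro S hS
  obtain ⟨k, v, rfl⟩ := t1 S ((hmem S).1 hS)
  exact copy_card c k v

theorem eight_dvd {c : Bool} {m n : ℕ} (h : Tiled c (rectangle m n)) : 8 ∣ m * n := by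
  rcases Nat.even_or_odd m with hm | hm
  · exact dvd_of_tiled_even hm h
  · have h4 := four_dvd h
    have hn : Even n := by
      have : 2 ∣ m * n := dvd_trans (by norm_num) h4
      rcases (Nat.Prime.dvd_mul Nat.prime_two).1 this with h | h
      · exact absurd (even_iff_two_dvd.2 h) (Nat.not_even_iff_odd.2 hm)
      · exact even_iff_two_dvd.2 h
    rw [mul_comm]
    exact dvd_of_tiled_even hn (tiled_transpose h)

/-! ## necessity: thin rectangles -/

theorem not_one {c : Bool} {n : ℕ} (hn : 1 ≤ n) (h : Tiled c (rectangle 1 n)) : False := by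
  obtain ⟨T, t1, t2, t3⟩ := h
  obtain ⟨S, hS, -⟩ := (t3 (0, 0)).1 ⟨le_refl _, by norm_num, le_refl _, by
    show (0 : ℤ) < n
    exact_mod_cast hn⟩
  obtain ⟨k, v, rfl⟩ := t1 S hS
  have hx : ∀ p ∈ copy c k v, p.1 = 0 := by
    intro p hp
    have := (t3 p).2 ⟨_, hS, hp⟩
    have h1 := this.1
    have h2 := this.2.1
    push_cast at h2
    omega
  rw [copy_mod] at hx
  have hk : k % 4 < 4 := Nat.mod_lt _ (by norm_num)
  obtain ⟨x, y⟩ := v
  generalize k % 4 = j at hk hx
  have a1 := hx _ (Finset.mem_image_of_mem _ (show ((0, 0) : ℤ × ℤ) ∈ L by decide))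
  have a2 := hx _ (Finset.mem_image_of_mem _ (show ((1, 0) : ℤ × ℤ) ∈ L by decide))
  have a3 := hx _ (Finset.mem_image_of_mem _ (show ((0, 1) : ℤ × ℤ) ∈ L by decide))
  cases c
  · interval_cases j <;> simp [rot] at a1 a2 a3 <;> omega
  · interval_cases j <;> simp [rot, mir] at a1 a2 a3 <;> omega

/-- the cells of the bottom of the strip of width 3 -/
def order : List (ℤ × ℤ) :=
  [(0, 0), (1, 0), (2, 0), (0, 1), (1, 1), (2, 1), (0, 2), (1, 2), (2, 2), (0, 3), (1, 3), (2, 3), (0, 4), (1, 4),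
    (2, 4)]

/-- exhaustive search -/
def dead : ℕ → Finset (ℤ × ℤ) → Bool
  | 0, _ => false
  | f + 1, occ =>
    match order.find? (fun p => decide (p ∉ occ)) with
    | none => false
    | some p => (List.range 4).all fun k => [(0, 0), (1, 0), (2, 0), (0, 1)].all fun q =>
        let S := copy false k (p - rot^[k] q)
        decide (¬ (∀ r ∈ S, 0 ≤ r.1 ∧ r.1 < 3 ∧ 0 ≤ r.2)) || decide (¬ Disjoint S occ) || dead f (occ ∪ S)

theorem dead_start : dead 12 ∅ = true := by decide +kernel

theorem dead_sound {n : ℕ} (hn : 5 ≤ n) (T : Set (Finset (ℤ × ℤ))) (t1 : ∀ S ∈ T, ∃ k v, S = copy false k v)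
    (t2 : ∀ S ∈ T, ∀ S' ∈ T, S ≠ S' → Disjoint S S') (t3 : ∀ p, p ∈ rectangle 3 n ↔ ∃ S ∈ T, p ∈ S) :
    ∀ (f : ℕ) (occ : Finset (ℤ × ℤ)), (∀ p ∈ occ, ∃ S ∈ T, p ∈ S ∧ S ⊆ occ) → dead f occ = true → False := by
  intro f
  induction f with
  | zero => intro occ _ h; simp [dead] at h
  | succ f ih =>
    intro occ hocc h
    rw [dead] at h
    cases hfind : order.find? (fun p => decide (p ∉ occ)) with
    | none => rw [hfind] at h; simp at h
    | some p =>
      rw [hfind] at h
      simp only at h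
      have hp1 : p ∉ occ := by
        have := List.find?_some hfind
        simpa using this
      have hp2 : p ∈ order := List.mem_of_find?_eq_some hfind
      have hpR : p ∈ rectangle 3 n := by
        have hb : 0 ≤ p.1 ∧ p.1 < 3 ∧ 0 ≤ p.2 ∧ p.2 < 5 := by
          have : ∀ q ∈ order, 0 ≤ q.1 ∧ q.1 < 3 ∧ 0 ≤ q.2 ∧ q.2 < 5 := by decide
          exact this p hp2
        have hn' : (5 : ℤ) ≤ n := by exact_mod_cast hn
        exact ⟨hb.1, by push_cast; exact hb.2.1, hb.2.2.1, by linarith [hb.2.2.2]⟩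
      obtain ⟨S, hS, hpS⟩ := (t3 p).1 hpR
      obtain ⟨k, v, hkv⟩ := t1 S hS
      rw [copy_mod] at hkv
      have hk : k % 4 < 4 := Nat.mod_lt _ (by norm_num)
      -- disjointness from the occupied cells
      have hdis : Disjoint S occ := by
        rw [Finset.disjoint_left]
        intro r hr hr'
        obtain ⟨S', hS', hrS', hsub⟩ := hocc r hr'
        by_cases hSS : S = S'
        · exact hp1 (hsub (hSS ▸ hpS))
        · exact Finset.disjoint_left.1 (t2 S hS S' hS' hSS) hr hrS'
      have hstrip : ∀ r ∈ S, 0 ≤ r.1 ∧ r.1 < 3 ∧ 0 ≤ r.2 := by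
        intro r hr
        have := (t3 r).2 ⟨S, hS, hr⟩
        exact ⟨this.1, by have := this.2.1; push_cast at this; exact this, this.2.2.1⟩
      -- the position of `p` in the tile
      have hpS' := hpS
      rw [hkv, copy] at hpS'
      obtain ⟨q, hq, hqp⟩ := Finset.mem_image.1 hpS'
      simp only [Bool.false_eq_true, if_false] at hqp
      have hv : v = p - rot^[k % 4] q := by rw [← hqp]; simp
      rw [List.all_eq_true] at h
      have h1 := h (k % 4) (List.mem_range.2 hk)
      rw [List.all_eq_true] at h1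
      have h2 := h1 q (by
        simp only [L, Finset.mem_insert, Finset.mem_singleton] at hq
        simp only [List.mem_cons, List.not_mem_nil, or_false]
        exact hq)
      rw [← hv, ← hkv] at h2
      simp only [Bool.or_eq_true, decide_eq_true_eq] at h2
      rcases h2 with (h2 | h2) | h2
      · exact h2 hstrip
      · exact h2 hdis
      · apply ih (occ ∪ S) ?_ h2
        intro r hr
        rcases Finset.mem_union.1 hr with hr | hr
        · obtain ⟨S', hS', h3, h4⟩ := hocc r hr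
          exact ⟨S', hS', h3, h4.trans Finset.subset_union_left⟩
        · exact ⟨S, hS, hr, Finset.subset_union_right⟩

theorem not_three {c : Bool} {n : ℕ} (hn : 1 ≤ n) (h : Tiled c (rectangle 3 n)) : False := by
  have h8 := eight_dvd h
  have hn8 : 8 ∣ n := by
    have hc : Nat.Coprime 8 3 := by norm_num
    exact hc.dvd_of_dvd_mul_left h8
  have hn5 : 5 ≤ n := le_trans (by norm_num) (Nat.le_of_dvd hn hn8)
  have hf : Tiled false (rectangle 3 n) := by
    cases c
    · exact h
    · have h2 := tiled_mirror (c := true) h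
      exact h2
  obtain ⟨T, t1, t2, t3⟩ := hf
  have h0 : ∀ p ∈ (∅ : Finset (ℤ × ℤ)), ∃ S ∈ T, p ∈ S ∧ S ⊆ (∅ : Finset (ℤ × ℤ)) :=
    fun p hp => absurd hp (Finset.notMem_empty p)
  have key := dead_sound (n := n) hn5 T t1 t2 t3 12 ∅ h0
  exact key dead_start

/-- The exact criterion, and the failure of the expected one. -/
theorem result :
    (∀ m n : ℕ, 1 ≤ m → 1 ≤ n → (HasTiling m n ↔ 2 ≤ m ∧ 2 ≤ n ∧ 8 ∣ m * n ∧ m ≠ 3 ∧ n ≠ 3)) ∧
    ¬ (∀ m n : ℕ, 1 ≤ m → 1 ≤ n → (HasTiling m n ↔ (4 ∣ m ∧ 2 ∣ n) ∨ (4 ∣ n ∧ 2 ∣ m))) := by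
  have key : ∀ m n : ℕ, 1 ≤ m → 1 ≤ n → (HasTiling m n ↔ 2 ≤ m ∧ 2 ≤ n ∧ 8 ∣ m * n ∧ m ≠ 3 ∧ n ≠ 3) := by
    intro m n hm hn
    constructor
    · rintro ⟨c, h⟩
      refine ⟨?_, ?_, eight_dvd h, ?_, ?_⟩
      · by_contra hlt
        have : m = 1 := by omega
        subst this
        exact not_one hn h
      · by_contra hlt
        have : n = 1 := by omega
        subst this
        exact not_one hm (tiled_transpose h)
      · rintro rfl
        exact not_three hn h
      · rintro rfl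
        exact not_three hm (tiled_transpose h)
    · rintro ⟨h1, h2, h3, h4, h5⟩
      exact ⟨false, tiled_of m n h1 h2 h3 h4 h5⟩
  refine ⟨key, fun h => ?_⟩
  have h1 := (h 5 8 (by norm_num) (by norm_num)).1 ((key 5 8 (by norm_num) (by norm_num)).2 (by norm_num))
  revert h1
  decide

end Pool.Agent.Results.MP_7a8221_co.Characterization
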